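import Pool.Agent.L5helper12.CV.Gb
import Pool.Agent.L5helper12.PV.Up

/-! The average over the windows. -/

set_option autoImplicit false

open Filter Topology Set MeasureTheory Complex H370

namespace Pool.Agent.L5helper12.CV

open Pool.Agent.L5helper10.TV hiding GG
open Pool.Agent.L5helper12.PV
open Pool.Agent.Y744 (mz mz_nonneg)

lemma G0_intOn (κ : ℝ) (hκ0 : 0 ≤ κ) (hκ : κ ≤ 1) (a b : ℝ) : IntegrableOn (G0 κ) (Ioc a b) := by
  refine Integrable.mono' (G1_intOn κ hκ0 hκ a b) (G0_meas κ).aestronglyMeasurable ?_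
  filter_upwards with u
  rw [Real.norm_eq_abs, abs_of_nonneg (G0_nonneg κ u)]
  exact G0_le_G1 κ u hκ0 hκ

lemma kG0_intOn {k : ℝ → ℝ} {ℓ : ℕ} {C B : ℝ} (h : KW k ℓ C B) (L : ℝ) (κ : ℝ) (hκ0 : 0 ≤ κ) (hκ : κ ≤ 1) (a b : ℝ) :
    IntegrableOn (fun u => k (u / L) * G0 κ u) (Ioc a b) :=
  g_mul_intOn (fun u => k (u / L)) (h.cont.measurable.comp (measurable_id.div_const L)) (fun u => h.nn _) B
    (fun u => h.bd _) _ a b (G0_intOn κ hκ0 hκ a b)

lemma kap_ev (κ : ℝ → ℝ) (hκ : Tendsto (fun T => κ T * T) atTop (𝓝 1)) : ∀ᶠ T in atTop, 0 < κ T ∧ κ T ≤ 2 / T := by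
  filter_upwards [hκ.eventually (eventually_gt_nhds (by norm_num : (0 : ℝ) < 1)),
    hκ.eventually (eventually_lt_nhds (by norm_num : (1 : ℝ) < 2)), eventually_gt_atTop 0] with T h1 h2 h3
  constructor
  · by_contra hc
    have : κ T * T ≤ 0 := mul_nonpos_of_nonpos_of_nonneg (not_lt.1 hc) h3.le
    linarith
  · rw [le_div_iff₀ h3]
    exact h2.le

theorem G0_av (RH : RiemannHypothesis) {k : ℝ → ℝ} {ℓ : ℕ} {C B : ℝ} (h : KW k ℓ C B)
    (h0 : ∀ α : ℝ, 0 ≤ α → α ≤ 1 / 2 → k α = 0) (ρ : ℝ) (hρ : 0 ≤ ρ)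
    (Fej : ∀ x : ℝ → ℝ, Tendsto x atTop (𝓝 1) → ∀ ε : ℝ, 0 < ε → ∀ᶠ T in atTop,
      ∫ y in (1 / Real.log T ^ 2)..(Real.log T ^ 2), qf (x T) y / y ^ 2 * NU k ℓ T y ≤ Real.pi * ρ + ε)
    (κ : ℝ → ℝ) (hκ : Tendsto (fun T => κ T * T) atTop (𝓝 1)) (ε : ℝ) (hε : 0 < ε) : ∀ᶠ T in atTop,
    ∫ u in Ioc 0 (ℓ * Real.log T), k (u / Real.log T) * G0 (κ T) u ≤
      (Real.sqrt Real.pi / 2 * ρ + ε) * (Real.log T ^ 2 / T) := by
  set η : ℝ := min 1 (ε / (4 * (ρ + 1))) with hηd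
  have hη : 0 < η := lt_min one_pos (by positivity)
  have hη1 : η ≤ 1 := min_le_left _ _
  have hηρ : η * ρ ≤ ε / 4 := by
    have h1 : η ≤ ε / (4 * (ρ + 1)) := min_le_right _ _
    calc η * ρ ≤ ε / (4 * (ρ + 1)) * (ρ + 1) := by
          apply mul_le_mul h1 (by linarith) hρ (by positivity)
      _ = ε / 4 := by field_simp
  obtain ⟨C1, hC1, hG⟩ := G0_up RH η hη
  have hB := h.B0
  have hlogbig := Real.tendsto_log_atTop.eventually_ge_atTop (4 * (C1 * B * ℓ) / ε + 1)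
  filter_upwards [hG, small_ev, kap_ev κ hκ, Fej (fun T => κ T * T) hκ (ε / 4) (by positivity), hlogbig] with
    T hGT hs hk hF hbig
  obtain ⟨hT16, hL1, hL8⟩ := hs
  obtain ⟨hκ0, hκ2⟩ := hk
  have hTp : 0 < T := by linarith
  have hκ1 : κ T ≤ 1 := hκ2.trans (by rw [div_le_one hTp]; linarith)
  set L := Real.log T with hLd
  have hL0 : 0 < L := by linarith
  set t0 := T / L ^ 2 with ht0
  set t1 := T * L ^ 2 with ht1
  have ht0p : 0 < t0 := by positivity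
  have hL2 : 1 ≤ L ^ 2 := one_le_pow₀ hL1
  have h01 : t0 ≤ t1 := by
    calc t0 ≤ T := div_le_self hTp.le hL2
      _ ≤ t1 := le_mul_of_one_le_right hTp.le hL2
  have hphi : ContinuousOn (fun t : ℝ => qf (κ T) t / t ^ 2) (Icc t0 t1) := by
    apply ContinuousOn.div (qf_cont (κ T)).continuousOn (by fun_prop)
    intro t ht
    have : 0 < t := ht0p.trans_le ht.1
    positivity
  set J : ℝ → ℝ := fun u => ∫ t in t0..t1, qf (κ T) t / t ^ 2 * ‖SP (Zw T) u t‖ ^ 2 with hJ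
  have hi1 : IntegrableOn (fun u => k (u / L) * J u) (Ioc 0 (ℓ * L)) :=
    MS_ii h.cont ℓ (Zw T) L (fun t => qf (κ T) t / t ^ 2) t0 t1 h01 hphi
  have hi2 : IntegrableOn (fun u : ℝ => k (u / L)) (Ioc 0 (ℓ * L)) :=
    (h.cont.comp (continuous_id.div_const L)).integrableOn_Ioc
  have hpt : ∀ u ∈ Ioc 0 (ℓ * L), k (u / L) * G0 (κ T) u ≤
      (1 + η) * 2 * (k (u / L) * J u) + C1 / T * k (u / L) := by
    intro u hu
    by_cases hu2 : L / 2 ≤ u
    · have h1 := hGT (κ T) u hκ0 hκ2 hu2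
      have h2 := mul_le_mul_of_nonneg_left h1 (h.nn (u / L))
      refine h2.trans (le_of_eq ?_)
      ring
    · have h1 : k (u / L) = 0 := by
        apply h0 _ (div_nonneg hu.1.le hL0.le)
        rw [div_le_iff₀ hL0]
        linarith [not_le.1 hu2]
      rw [h1]
      simp
  have hfub := NU_fub h.cont ℓ T (κ T * T) (κ T * t0) (κ T * t1) 0 (by linarith) (by positivity) (by positivity)
    (mul_le_mul_of_nonneg_left h01 hκ0.le)
  have e1 : κ T * T / T = κ T := by field_simp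
  have e2 : κ T * t0 / (κ T) = t0 := by field_simp
  have e3 : κ T * t1 / (κ T) = t1 := by field_simp
  have e4 : κ T * t0 / (κ T * T) = 1 / L ^ 2 := by
    rw [ht0]; field_simp
  have e5 : κ T * t1 / (κ T * T) = L ^ 2 := by
    rw [ht1]; field_simp
  rw [e1, e2, e3, e4, e5] at hfub
  simp only [sub_zero] at hfub
  have hfub' : 4 * Real.sqrt Real.pi * (∫ u in Ioc 0 (ℓ * L), k (u / L) * J u) =
      L ^ 2 / T * ∫ y in (1 / L ^ 2)..(L ^ 2), qf (κ T * T) y / y ^ 2 * NU k ℓ T y := hfub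
  set I1 := ∫ u in Ioc 0 (ℓ * L), k (u / L) * J u with hI1
  set F := ∫ y in (1 / L ^ 2)..(L ^ 2), qf (κ T * T) y / y ^ 2 * NU k ℓ T y with hFd
  have hint : ∫ u in Ioc 0 (ℓ * L), k (u / L) * G0 (κ T) u ≤ (1 + η) * 2 * I1 + C1 / T * (B * (ℓ * L)) := by
    have h1 : ∫ u in Ioc 0 (ℓ * L), k (u / L) ≤ B * (ℓ * L) := by
      have hℓL : 0 ≤ (ℓ : ℝ) * L := by positivity
      calc ∫ u in Ioc 0 (ℓ * L), k (u / L) ≤ ∫ _ in Ioc 0 (ℓ * L), B :=
            setIntegral_mono_on hi2 (integrableOn_const measure_Ioc_lt_top.ne) measurableSet_Ioc fun u _ => h.bd _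
        _ = B * (ℓ * L) := by
            rw [setIntegral_const, smul_eq_mul, Real.volume_real_Ioc_of_le hℓL]
            ring
    calc ∫ u in Ioc 0 (ℓ * L), k (u / L) * G0 (κ T) u ≤
          ∫ u in Ioc 0 (ℓ * L), ((1 + η) * 2 * (k (u / L) * J u) + C1 / T * k (u / L)) :=
          setIntegral_mono_on (kG0_intOn h L (κ T) hκ0.le hκ1 _ _) ((hi1.const_mul _).add (hi2.const_mul _))
            measurableSet_Ioc hpt
      _ = (1 + η) * 2 * I1 + C1 / T * ∫ u in Ioc 0 (ℓ * L), k (u / L) := by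
          rw [integral_add (hi1.const_mul _) (hi2.const_mul _), MeasureTheory.integral_const_mul,
            MeasureTheory.integral_const_mul]
      _ ≤ _ := by gcongr
  have hsp := Real.sqrt_pos.2 Real.pi_pos
  have hspi : Real.sqrt Real.pi * Real.sqrt Real.pi = Real.pi := Real.mul_self_sqrt Real.pi_pos.le
  have hs1 : 1 ≤ Real.sqrt Real.pi := by
    rw [Real.one_le_sqrt]; linarith [Real.pi_gt_three]
  have hs2 : Real.sqrt Real.pi ≤ 2 := sqpi
  have hI : I1 = (1 / (4 * Real.sqrt Real.pi)) * (L ^ 2 / T * F) := by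
    rw [← hfub']
    field_simp
  have hLT : 0 < L ^ 2 / T := by positivity
  have hF' : (1 + η) * 2 * I1 ≤ (Real.sqrt Real.pi / 2 * ρ + ε / 2) * (L ^ 2 / T) := by
    have h1 : (1 + η) * 2 * I1 = ((1 + η) * (1 / (2 * Real.sqrt Real.pi)) * F) * (L ^ 2 / T) := by
      rw [hI]; field_simp; ring
    rw [h1]
    apply mul_le_mul_of_nonneg_right _ hLT.le
    have h2 : (1 + η) * (1 / (2 * Real.sqrt Real.pi)) * F ≤
        (1 + η) * (1 / (2 * Real.sqrt Real.pi)) * (Real.pi * ρ + ε / 4) := by gcongr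
    refine h2.trans ?_
    have h3 : (1 / (2 * Real.sqrt Real.pi)) * (Real.pi * ρ + ε / 4) =
        Real.sqrt Real.pi / 2 * ρ + ε / (8 * Real.sqrt Real.pi) := by
      field_simp
      nlinarith [hspi]
    have h4 : ε / (8 * Real.sqrt Real.pi) ≤ ε / 8 := by
      apply div_le_div_of_nonneg_left hε.le (by norm_num)
      linarith
    rw [mul_assoc, h3]
    have h5 : Real.sqrt Real.pi / 2 * ρ ≤ ρ := by nlinarith
    have h6 : 0 ≤ Real.sqrt Real.pi / 2 * ρ := by positivity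
    nlinarith
  have hC' : C1 / T * (B * (ℓ * L)) ≤ ε / 4 * (L ^ 2 / T) := by
    have h1 : 4 * (C1 * B * ℓ) ≤ ε * L := by
      have : 4 * (C1 * B * ℓ) / ε ≤ L := by linarith
      rw [div_le_iff₀ hε] at this
      linarith
    calc C1 / T * (B * (ℓ * L)) = (4 * (C1 * B * ℓ)) * (L / (4 * T)) := by field_simp
      _ ≤ (ε * L) * (L / (4 * T)) := by gcongr
      _ = _ := by field_simp
  calc _ ≤ _ := hint
    _ ≤ (Real.sqrt Real.pi / 2 * ρ + ε / 2) * (L ^ 2 / T) + ε / 4 * (L ^ 2 / T) := add_le_add hF' hC'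
    _ ≤ _ := by nlinarith

end Pool.Agent.L5helper12.CV
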