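import Pool.Agent.L5helper12.CV.Av

/-! The crude bound for the variance, on the Riemann hypothesis, uniform in all parameters. -/

set_option autoImplicit false

open Filter Topology Set MeasureTheory Complex H370

namespace Pool.Agent.L5helper12.CV

open Pool.Agent.L5helper10.TV hiding GG
open Pool.Agent.L5helper12.PV

theorem G0_crude (RH : RiemannHypothesis) : ∃ C : ℝ, 0 ≤ C ∧ ∀ κ u : ℝ, 0 < κ → κ ≤ 1 → 0 ≤ u →
    G0 κ u ≤ C * (κ * Real.log (3 + 1 / κ) ^ 2) := by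
  obtain ⟨C, hC, hS⟩ := SS_bd RH
  refine ⟨46 * C ^ 2, by positivity, fun κ u hκ0 hκ hu => ?_⟩
  obtain ⟨hint, hG⟩ := G0_half κ hκ0.le hκ u
  set a := 1 / κ with ha
  have ha0 : 0 < a := by positivity
  have hi1 : IntegrableOn (fun t : ℝ => ‖SS κ om u t‖ ^ 2) (Ioc 0 a) := hint.mono_set Ioc_subset_Ioi_self
  have hi3 : IntegrableOn (fun t : ℝ => ‖SS κ om u t‖ ^ 2) (Ioi a) := hint.mono_set fun x hx => ha0.trans hx
  have hsplit : ∫ t in Ioi (0 : ℝ), ‖SS κ om u t‖ ^ 2 = (∫ t in Ioc 0 a, ‖SS κ om u t‖ ^ 2) +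
      ∫ t in Ioi a, ‖SS κ om u t‖ ^ 2 := by
    rw [← Ioc_union_Ioi_eq_Ioi ha0.le, setIntegral_union Ioc_disjoint_Ioi_same measurableSet_Ioi hi1 hi3]
  set L := Real.log (3 + a) with hL
  have hL1 : 1 ≤ L := by
    rw [hL, Real.le_log_iff_exp_le (by positivity)]
    have := Real.exp_one_lt_d9
    linarith
  have hlow : ∫ t in Ioc 0 a, ‖SS κ om u t‖ ^ 2 ≤ C ^ 2 * (κ * L ^ 2) := by
    have h1 : ∀ t ∈ Ioc 0 a, ‖SS κ om u t‖ ^ 2 ≤ C ^ 2 * (L ^ 2 * κ ^ 2) := by
      intro t ht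
      have h2 := hS κ u t hκ0 hκ hu
      have h3 : Real.log (3 + |t|) ≤ L := by
        rw [abs_of_pos ht.1]
        exact Real.log_le_log (by linarith [ht.1]) (by linarith [ht.2])
      have h4 : ‖SS κ om u t‖ ≤ C * (L * κ) :=
        h2.trans (mul_le_mul_of_nonneg_left (mul_le_mul h3 (min_le_left _ _) (mn_nonneg κ t hκ0) (by linarith)) hC)
      calc ‖SS κ om u t‖ ^ 2 ≤ (C * (L * κ)) ^ 2 := by gcongr
        _ = _ := by ring
    calc ∫ t in Ioc 0 a, ‖SS κ om u t‖ ^ 2 ≤ ∫ _ in Ioc 0 a, C ^ 2 * (L ^ 2 * κ ^ 2) :=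
          setIntegral_mono_on hi1 (integrableOn_const measure_Ioc_lt_top.ne) measurableSet_Ioc h1
      _ = a * (C ^ 2 * (L ^ 2 * κ ^ 2)) := by
          rw [setIntegral_const, smul_eq_mul, Real.volume_real_Ioc_of_le ha0.le, sub_zero]
      _ = C ^ 2 * (κ * L ^ 2) := by
          rw [ha]; field_simp
  have hhigh : ∫ t in Ioi a, ‖SS κ om u t‖ ^ 2 ≤ 45 * C ^ 2 * (κ * L ^ 2) := by
    obtain ⟨j1, j2⟩ := logsq_tail a ha0.le
    have h1 : ∫ t in Ioi a, ‖SS κ om u t‖ ^ 2 ≤ ∫ t in Ioi a, 9 * C ^ 2 * (Real.log (3 + t) / (3 + t)) ^ 2 :=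
      setIntegral_mono_on hi3 (j1.const_mul _) measurableSet_Ioi fun t ht =>
        SS_sq_high hC hκ0 (hS κ u t hκ0 hκ hu) (ha0.trans ht).le
    rw [MeasureTheory.integral_const_mul, j2] at h1
    have h4 : (L ^ 2 + 2 * L + 2) / (3 + a) ≤ 5 * (κ * L ^ 2) := by
      have h5 : L ^ 2 + 2 * L + 2 ≤ 5 * L ^ 2 := by nlinarith
      calc (L ^ 2 + 2 * L + 2) / (3 + a) ≤ (5 * L ^ 2) / a := by
            apply div_le_div₀ (by positivity) h5 ha0
            linarith
        _ = 5 * (κ * L ^ 2) := by rw [ha]; field_simp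
    calc _ ≤ _ := h1
      _ ≤ 9 * C ^ 2 * (5 * (κ * L ^ 2)) := by gcongr
      _ = _ := by ring
  have hpi3 := Real.pi_gt_three
  have hG0 := G0_nonneg κ u
  have h8 : 0 ≤ 46 * C ^ 2 * (κ * L ^ 2) := by positivity
  have : Real.pi * G0 κ u ≤ 46 * C ^ 2 * (κ * L ^ 2) := by
    rw [hG, hsplit]
    linarith
  nlinarith

theorem fk_crude (RH : RiemannHypothesis) : ∃ C : ℝ, 0 ≤ C ∧ ∀ κ A : ℝ, 0 < κ → κ ≤ 1 → 0 ≤ A →
    ∫ v in A..(A + 1), fk κ v ^ 2 ≤ C * (κ * Real.log (3 + 1 / κ) ^ 2) := by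
  obtain ⟨C, hC, hG⟩ := G0_crude RH
  refine ⟨3 * C, by positivity, fun κ A hκ0 hκ hA => ?_⟩
  have h1 := hG κ A hκ0 hκ hA
  have hint : Integrable (fun v => fk κ v ^ 2 * Real.exp (-(A - v) ^ 2)) := by
    have := fw_sq_int κ hκ0.le hκ (ω := om) (B := 1) ⟨by unfold om; fun_prop, fun x => by
      unfold om
      rw [abs_of_pos (Real.exp_pos _), one_mul]
      apply Real.exp_le_exp.2
      nlinarith [sq_nonneg x]⟩ A
    refine this.congr (Eventually.of_forall fun v => ?_)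
    simp only [fw, om]
    rw [mul_pow, ← Real.exp_nat_mul]
    congr 2
    push_cast
    ring
  have h2 : ∫ v in A..(A + 1), fk κ v ^ 2 ≤ 3 * G0 κ A := by
    rw [intervalIntegral.integral_of_le (by linarith)]
    unfold G0
    rw [← MeasureTheory.integral_const_mul]
    calc ∫ v in Ioc A (A + 1), fk κ v ^ 2 ≤ ∫ v in Ioc A (A + 1), 3 * (fk κ v ^ 2 * Real.exp (-(A - v) ^ 2)) := by
          apply setIntegral_mono_on (fk2_ioc κ A (A + 1) hκ0 hκ) (hint.const_mul 3).integrableOn measurableSet_Ioc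
          intro v hv
          have h3 : (A - v) ^ 2 ≤ 1 := by
            have := hv.1; have := hv.2
            nlinarith
          have h4 : 1 ≤ 3 * Real.exp (-(A - v) ^ 2) := by
            have h5 : Real.exp (-1) ≤ Real.exp (-(A - v) ^ 2) := Real.exp_le_exp.2 (by linarith)
            have h6 : 1 / 3 ≤ Real.exp (-1) := by
              rw [Real.exp_neg, one_div]
              apply inv_anti₀ (Real.exp_pos _)
              have := Real.exp_one_lt_d9
              linarith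
            linarith
          nlinarith [sq_nonneg (fk κ v)]
      _ ≤ ∫ v, 3 * (fk κ v ^ 2 * Real.exp (-(A - v) ^ 2)) :=
          setIntegral_le_integral (hint.const_mul 3) (Eventually.of_forall fun v => by positivity)
  calc _ ≤ _ := h2
    _ ≤ 3 * (C * (κ * Real.log (3 + 1 / κ) ^ 2)) := by linarith
    _ = _ := by ring

end Pool.Agent.L5helper12.CV
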