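import Pool.Agent.L5helper12.PV.QSl
import Pool.Agent.L5helper12.PV.Chg
import Pool.Agent.L5helper12.PV.G
import Pool.Agent.L5helper12.TW.Crit

/-! The converse direction: definitions. -/

set_option autoImplicit false

open Filter Topology Set MeasureTheory Complex H370

namespace Pool.Agent.L5helper12.CV

/-- the Gaussian window -/
noncomputable def om (x : ℝ) : ℝ := Real.exp (-x ^ 2 / 2)

/-- the multiplier `2 sinh (κ z / 2) / z` -/
noncomputable def Mk (κ : ℝ) (z : ℂ) : ℂ := ∫ x in (-(κ / 2))..(κ / 2), cexp (x * z)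

/-- the real multiplier `2 sin (κ t / 2) / t` -/
noncomputable def mk0 (κ t : ℝ) : ℝ := ∫ x in (-(κ / 2))..(κ / 2), Real.cos (x * t)

/-- the decay -/
noncomputable def mn (κ t : ℝ) : ℝ := min κ (1 / (1 + |t|))

/-- logarithmic derivative of zeta -/
noncomputable def ld (s : ℂ) : ℂ := deriv riemannZeta s / riemannZeta s

/-- all nontrivial zeros with `|Im| < U` -/
def zsU (U : ℝ) : Set ℂ := {s : ℂ | 0 < s.re ∧ s.re < 1 ∧ |s.im| < U ∧ riemannZeta s = 0}

open Classical in
noncomputable def ZU (U : ℝ) : Finset ℂ := if h : (zsU U).Finite then h.toFinset else ∅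

/-- the good heights -/
def good (U : ℝ) : Prop := 2 ≤ U ∧ ∀ σ ∈ Icc (-1 / 2 : ℝ) (3 / 2), riemannZeta (⟨σ, U⟩ : ℂ) ≠ 0

end Pool.Agent.L5helper12.CV
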