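import Pool.Agent.L5helper12.CV.Parts

/-! The explicit formula with the multiplier. -/

set_option autoImplicit false

open Filter Topology Set MeasureTheory Complex H370

namespace Pool.Agent.L5helper12.CV

open Pool.Agent.L5helper10.TV hiding GG
open Pool.Agent.L5helper12.PV
open Pool.Agent.Y744 (mz mz_nonneg)

lemma hhMk_diff (κ u t : ℝ) : Differentiable ℂ (fun s => hh u t s * Mk κ s) :=
  (hh_diff u t).mul (Mk_entire κ)

/-- the explicit formula -/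
theorem SS_formula : ∃ C : ℝ, 0 ≤ C ∧ ∃ Un : ℕ → ℝ, Tendsto Un atTop atTop ∧ (∀ n, (zsU (Un n)).Finite) ∧
    ∀ κ u t : ℝ, 0 < κ → κ ≤ 1 → ∀ δ : ℝ, 0 < δ → ∀ᶠ n in atTop,
    ‖(Real.sqrt (2 * Real.pi) : ℂ) * SS κ om u t + 2 * Real.pi *
        ∑ s ∈ ZU (Un n), (mult riemannZeta s : ℂ) * (hh u t s * Mk κ s)‖ ≤
      C * (Real.exp (-u) * (Real.log (3 + |t|) * mn κ t)) + δ := by
  obtain ⟨C, hC, hleft⟩ := left_line
  obtain ⟨Un, hUn, hgood, hlim⟩ := heights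
  refine ⟨C, hC, Un, hUn, fun n => (resid (fun _ => 0) (differentiable_const _) (Un n) (hgood n)).1,
    fun κ u t hκ0 hκ δ hδ => ?_⟩
  obtain ⟨h1, h2⟩ := hlim κ u t hκ0 hκ
  rw [prime_side κ hκ0 hκ u t] at h2
  have h1' := (Metric.tendsto_nhds.1 h1) (δ / 2) (by positivity)
  have h2' := (Metric.tendsto_nhds.1 h2) (δ / 2) (by positivity)
  filter_upwards [h1', h2'] with n h3 h4
  have h5 := (resid (fun s => hh u t s * Mk κ s) (hhMk_diff κ u t) (Un n) (hgood n)).2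
  have h6 := hleft κ u t (Un n) hκ0 hκ (by linarith [(hgood n).1])
  rw [dist_zero_right] at h3
  rw [dist_eq_norm] at h4
  set HB := ∫ x in (-1 / 2 : ℝ)..(3 / 2), ld (⟨x, -(Un n)⟩ : ℂ) *
          (hh u t (⟨x, -(Un n)⟩ : ℂ) * Mk κ (⟨x, -(Un n)⟩ : ℂ)) with hHB
  set HT := ∫ x in (-1 / 2 : ℝ)..(3 / 2), ld (⟨x, Un n⟩ : ℂ) *
          (hh u t (⟨x, Un n⟩ : ℂ) * Mk κ (⟨x, Un n⟩ : ℂ)) with hHT
  set R := ∫ y in (-(Un n))..(Un n), ld (⟨3 / 2, y⟩ : ℂ) *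
          (hh u t (⟨3 / 2, y⟩ : ℂ) * Mk κ (⟨3 / 2, y⟩ : ℂ)) with hR
  set Lf := ∫ y in (-(Un n))..(Un n), ld (⟨-1 / 2, y⟩ : ℂ) *
          (hh u t (⟨-1 / 2, y⟩ : ℂ) * Mk κ (⟨-1 / 2, y⟩ : ℂ)) with hLf
  set Sn := ∑ s ∈ ZU (Un n), (mult riemannZeta s : ℂ) * (hh u t s * Mk κ s) with hSn
  set w : ℂ := (Real.sqrt (2 * Real.pi) : ℂ) with hw
  have hw2 : w * w = 2 * Real.pi := by
    rw [hw, ← ofReal_mul, Real.mul_self_sqrt (by positivity)]
    push_cast; ring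
  have h7 : 2 * (Real.pi : ℂ) * Sn = 2 * Real.pi * (hh u t 1 * Mk κ 1) - I * (HB - HT) + R - Lf := by
    have h8 : I * (2 * (Real.pi : ℂ) * Sn) = I * (2 * Real.pi * (hh u t 1 * Mk κ 1) - I * (HB - HT) + R - Lf) := by
      linear_combination (-1 : ℂ) * h5 + (HB - HT) * I_sq
    exact mul_left_cancel₀ I_ne_zero h8
  have h8 : w * SS κ om u t + 2 * Real.pi * Sn =
      (R - -(w * (SS κ om u t + w * (Mk κ 1 * hh u t 1)))) - I * (HB - HT) - Lf := by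
    rw [h7]
    linear_combination (-(Mk κ 1 * hh u t 1)) * hw2
  rw [h8]
  have h9 : ‖I * (HB - HT)‖ ≤ δ / 2 := by
    rw [norm_mul, norm_I, one_mul]
    exact h3.le
  calc ‖_‖ ≤ ‖R - -(w * (SS κ om u t + w * (Mk κ 1 * hh u t 1)))‖ + ‖I * (HB - HT)‖ + ‖Lf‖ :=
        (norm_sub_le _ _).trans (add_le_add_left (norm_sub_le _ _) _)
    _ ≤ δ / 2 + δ / 2 + C * (Real.exp (-u) * (Real.log (3 + |t|) * mn κ t)) :=
        add_le_add (add_le_add h4.le h9) h6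
    _ = _ := by ring

lemma mn_nonneg (κ t : ℝ) (hκ : 0 < κ) : 0 ≤ mn κ t := le_min hκ.le (by positivity)

lemma log3_nonneg (t : ℝ) : 0 ≤ Real.log (3 + |t|) := Real.log_nonneg (by linarith [abs_nonneg t])

lemma sqrt2pi_ge : 1 ≤ Real.sqrt (2 * Real.pi) := by
  rw [Real.one_le_sqrt]
  linarith [Real.pi_gt_three]

/-- the pointwise bound -/
theorem SS_bd (RH : RiemannHypothesis) : ∃ C : ℝ, 0 ≤ C ∧ ∀ κ u t : ℝ, 0 < κ → κ ≤ 1 → 0 ≤ u →
    ‖SS κ om u t‖ ≤ C * (Real.log (3 + |t|) * mn κ t) := by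
  obtain ⟨C, hC, Un, hUn, hfin, hEF⟩ := SS_formula
  obtain ⟨C2, hC2, hZ⟩ := Zsum_bd RH
  refine ⟨C + 2 * Real.pi * C2, by positivity, fun κ u t hκ0 hκ hu => ?_⟩
  apply le_of_forall_pos_le_add
  intro δ hδ
  obtain ⟨n, hn⟩ := (hEF κ u t hκ0 hκ δ hδ).exists
  have h1 := hZ κ (Un n) u t hκ0 hκ
  set Sn := ∑ s ∈ ZU (Un n), (mult riemannZeta s : ℂ) * (hh u t s * Mk κ s) with hSn
  have hm := mul_nonneg (log3_nonneg t) (mn_nonneg κ t hκ0)
  have h2 : ‖(Real.sqrt (2 * Real.pi) : ℂ) * SS κ om u t‖ ≤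
      ‖(Real.sqrt (2 * Real.pi) : ℂ) * SS κ om u t + 2 * Real.pi * Sn‖ + ‖2 * (Real.pi : ℂ) * Sn‖ := by
    have := norm_sub_le ((Real.sqrt (2 * Real.pi) : ℂ) * SS κ om u t + 2 * Real.pi * Sn) (2 * (Real.pi : ℂ) * Sn)
    rwa [add_sub_cancel_right] at this
  have h3 : ‖2 * (Real.pi : ℂ) * Sn‖ ≤ 2 * Real.pi * (C2 * (Real.log (3 + |t|) * mn κ t)) := by
    rw [norm_mul, norm_mul, Complex.norm_ofNat, Complex.norm_real, Real.norm_eq_abs, abs_of_pos Real.pi_pos]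
    gcongr
  have h4 : ‖SS κ om u t‖ ≤ ‖(Real.sqrt (2 * Real.pi) : ℂ) * SS κ om u t‖ := by
    rw [norm_mul, Complex.norm_real, Real.norm_eq_abs, abs_of_nonneg (Real.sqrt_nonneg _)]
    nlinarith [norm_nonneg (SS κ om u t), sqrt2pi_ge]
  have h5 : C * (Real.exp (-u) * (Real.log (3 + |t|) * mn κ t)) ≤ C * (Real.log (3 + |t|) * mn κ t) := by
    apply mul_le_mul_of_nonneg_left _ hC
    have : Real.exp (-u) ≤ 1 := Real.exp_le_one_iff.mpr (by linarith)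
    nlinarith
  calc ‖SS κ om u t‖ ≤ _ := h4
    _ ≤ _ := h2
    _ ≤ (C * (Real.log (3 + |t|) * mn κ t) + δ) + 2 * Real.pi * (C2 * (Real.log (3 + |t|) * mn κ t)) :=
        add_le_add (hn.trans (by linarith)) h3
    _ = _ := by ring

lemma log3_le (T t : ℝ) (hT : 16 ≤ T) (ht0 : 0 ≤ t) (ht : t ≤ T * Real.log T ^ 2) :
    Real.log (3 + |t|) ≤ 4 * Real.log T := by
  have hlog : Real.log T ≤ T := (Real.log_le_sub_one_of_pos (by linarith)).trans (by linarith)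
  have hlog0 : 0 ≤ Real.log T := Real.log_nonneg (by linarith)
  rw [abs_of_nonneg ht0]
  have h1 : 3 + t ≤ T ^ 4 := by
    have h2 : Real.log T ^ 2 ≤ T ^ 2 := pow_le_pow_left₀ hlog0 hlog 2
    have h3 : T * Real.log T ^ 2 ≤ T ^ 3 := by nlinarith
    have h4 : (3 : ℝ) ≤ T ^ 3 := by nlinarith [sq_nonneg T, mul_pos (show (0:ℝ) < T by linarith) (show (0:ℝ) < T by linarith)]
    have h5 : 2 * T ^ 3 ≤ T ^ 4 := by
      have : 0 ≤ T ^ 3 := by positivity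
      nlinarith
    linarith
  calc Real.log (3 + t) ≤ Real.log (T ^ 4) := Real.log_le_log (by linarith) h1
    _ = 4 * Real.log T := by rw [Real.log_pow]; norm_num

/-- the main approximation -/
theorem SS_main (RH : RiemannHypothesis) : ∃ C : ℝ, 0 ≤ C ∧ ∀ᶠ T in atTop, ∀ κ u t : ℝ, 0 < κ → κ ≤ 1 → 0 ≤ u →
    T / Real.log T ^ 2 ≤ t → t ≤ T * Real.log T ^ 2 →
    ‖SS κ om u t + (Real.sqrt (2 * Real.pi) : ℂ) * ((mk0 κ t : ℂ) * SP (Zw T) u t)‖ ≤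
      C * (Real.exp (-u) * Real.log T * κ + κ * Real.log T / t) := by
  obtain ⟨C, hC, Un, hUn, hfin, hEF⟩ := SS_formula
  obtain ⟨C2, hC2, hZ⟩ := Zsum_SP RH
  refine ⟨4 * C + 2 * Real.pi * C2, by positivity, ?_⟩
  filter_upwards [hZ, eventually_ge_atTop 16] with T hZT hT16 κ u t hκ0 hκ hu ht0 ht1
  have hL0 : 0 ≤ Real.log T := Real.log_nonneg (by linarith)
  have ht : 0 < t := lt_of_lt_of_le (by
    have : 0 < Real.log T := Real.log_pos (by linarith)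
    positivity) ht0
  apply le_of_forall_pos_le_add
  intro δ hδ
  obtain ⟨n, hn, hnU⟩ := ((hEF κ u t hκ0 hκ δ hδ).and (hUn.eventually_gt_atTop (T ^ 2))).exists
  have h1 := hZT κ u t (Un n) hκ0 hκ ht0 ht1 hnU (hfin n)
  set Sn := ∑ s ∈ ZU (Un n), (mult riemannZeta s : ℂ) * (hh u t s * Mk κ s) with hSn
  set w : ℂ := (Real.sqrt (2 * Real.pi) : ℂ) with hw
  have hw2 : w * w = 2 * Real.pi := by
    rw [hw, ← ofReal_mul, Real.mul_self_sqrt (by positivity)]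
    push_cast; ring
  have e1 : w * (SS κ om u t + w * ((mk0 κ t : ℂ) * SP (Zw T) u t)) =
      (w * SS κ om u t + 2 * Real.pi * Sn) - 2 * Real.pi * (Sn - (mk0 κ t : ℂ) * SP (Zw T) u t) := by
    linear_combination ((mk0 κ t : ℂ) * SP (Zw T) u t) * hw2
  have h2 : ‖2 * (Real.pi : ℂ) * (Sn - (mk0 κ t : ℂ) * SP (Zw T) u t)‖ ≤
      2 * Real.pi * (C2 * (κ * Real.log T / t)) := by
    rw [norm_mul, norm_mul, Complex.norm_ofNat, Complex.norm_real, Real.norm_eq_abs, abs_of_pos Real.pi_pos]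
    gcongr
  have h3 : ‖SS κ om u t + w * ((mk0 κ t : ℂ) * SP (Zw T) u t)‖ ≤
      ‖w * (SS κ om u t + w * ((mk0 κ t : ℂ) * SP (Zw T) u t))‖ := by
    rw [norm_mul, hw, Complex.norm_real, Real.norm_eq_abs, abs_of_nonneg (Real.sqrt_nonneg _)]
    nlinarith [norm_nonneg (SS κ om u t + (Real.sqrt (2 * Real.pi) : ℂ) * ((mk0 κ t : ℂ) * SP (Zw T) u t)), sqrt2pi_ge]
  have h4 : Real.log (3 + |t|) * mn κ t ≤ 4 * Real.log T * κ :=
    mul_le_mul (log3_le T t hT16 ht.le ht1) (min_le_left _ _) (mn_nonneg κ t hκ0) (by positivity)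
  have h5 : C * (Real.exp (-u) * (Real.log (3 + |t|) * mn κ t)) ≤
      4 * C * (Real.exp (-u) * Real.log T * κ) := by
    calc C * (Real.exp (-u) * (Real.log (3 + |t|) * mn κ t)) ≤ C * (Real.exp (-u) * (4 * Real.log T * κ)) := by
          gcongr
      _ = _ := by ring
  have h6 : 0 ≤ Real.exp (-u) * Real.log T * κ := by positivity
  have h7 : 0 ≤ κ * Real.log T / t := by positivity
  calc ‖SS κ om u t + w * ((mk0 κ t : ℂ) * SP (Zw T) u t)‖ ≤ _ := h3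
    _ ≤ ‖w * SS κ om u t + 2 * Real.pi * Sn‖ + ‖2 * (Real.pi : ℂ) * (Sn - (mk0 κ t : ℂ) * SP (Zw T) u t)‖ := by
        rw [e1]; exact norm_sub_le _ _
    _ ≤ (4 * C * (Real.exp (-u) * Real.log T * κ) + δ) + 2 * Real.pi * (C2 * (κ * Real.log T / t)) :=
        add_le_add (hn.trans (by linarith)) h2
    _ ≤ _ := by
        have : 0 ≤ Real.pi := Real.pi_pos.le
        nlinarith [mul_nonneg hC h7, mul_nonneg (mul_nonneg this hC2) h6]

end Pool.Agent.L5helper12.CV
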