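import Pool.Agent.L5helper12.CV.Av

/-! The converse: the Riemann hypothesis and Q1 imply the upper bound for the variance of primes. -/

set_option autoImplicit false

open Filter Topology Set MeasureTheory Complex H370

namespace Pool.Agent.L5helper12.CV

open Pool.Agent.L5helper10.TV hiding GG
open Pool.Agent.L5helper12.PV
open Pool.Agent.L5helper12.TW (T4 T4_fav Mont)
open Pool.Agent.Y744 (mz mz_nonneg Zb mem_Zb QS Xf Xf_pos Q2 TK ct AG Kav fav Aa Aa_int Nr pr Nr_all)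

lemma KW_smul {k : ℝ → ℝ} {ℓ : ℕ} {C B : ℝ} (h : KW k ℓ C B) (c : ℝ) (hc : 0 ≤ c) :
    KW (fun α => c * k α) ℓ (c * C) (c * B) where
  nn := fun α => mul_nonneg hc (h.nn α)
  lip := fun x y => by
    rw [← mul_sub, abs_mul, abs_of_nonneg hc, mul_assoc]
    exact mul_le_mul_of_nonneg_left (h.lip x y) hc
  supp := fun α hα => by rw [h.supp α hα, mul_zero]
  bd := fun α => mul_le_mul_of_nonneg_left (h.bd α) hc

lemma NU_smul (k : ℝ → ℝ) (ℓ : ℕ) (c T y : ℝ) : NU (fun α => c * k α) ℓ T y = c * NU k ℓ T y := by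
  unfold NU MS
  simp only [mul_assoc]
  rw [MeasureTheory.integral_const_mul]
  ring

/-- the density limit -/
theorem DL_K (hAa : ∀ x : ℝ, Tendsto (fun T => Aa T x) atTop (𝓝 (AG x))) {κ h : ℝ} {K : ℝ → ℝ} {M : ℕ} {C B : ℝ}
    (hK : TK κ K) (hκ : 0 < κ) (hh : 0 < h) (hM : κ + 1 ≤ M) (hKW : KW (Kav K h) M C B) :
    Tendsto (fun T => ∫ y in (1 : ℝ)..2, NU (Kav K h) M T y) atTop (𝓝 (mg (Kav K h) M)) :=
  NU_of_QS (T4_fav hK (show κ < κ + 1 by linarith) (by linarith : (0 : ℝ) < κ + 1) hh) M hM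
    (by have h1 : (1 : ℝ) ≤ M := by linarith
        exact_mod_cast h1) hKW _
    (QS_of_Q2 (T4_fav hK (show κ < κ + 1 by linarith) (by linarith : (0 : ℝ) < κ + 1) hh) _
      (Q2_of_Aa hAa hK hκ h hh M hM))

lemma mg_nonneg {k : ℝ → ℝ} {ℓ : ℕ} {C B : ℝ} (h : KW k ℓ C B) : 0 ≤ mg k ℓ := by
  have h1 := h.nn 0
  have h2 := Jm_nonneg h
  unfold mg
  unfold Jm at h2
  linarith

noncomputable def kT (T : ℝ) : ℝ := Real.log (1 + 1 / T)

lemma kT_lim : Tendsto (fun T => kT T * T) atTop (𝓝 1) := by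
  have := Real.tendsto_mul_log_one_add_div_atTop 1
  refine this.congr fun T => ?_
  unfold kT
  ring

theorem upperT_of (RH : RiemannHypothesis) (hAa : ∀ x : ℝ, Tendsto (fun T => Aa T x) atTop (𝓝 (AG x))) : UpperT := by
  intro a b ε ha hab hε
  set δ := ε / 8 with hδd
  have hδ : 0 < δ := by positivity
  obtain ⟨κ0, w, h, c, K, M, C, B, hκ0, hw, hh, hc, hK, hM, hwδ, hbw, haw, hKW, hvan, hone, hmg⟩ :=
    test_fn a (b + δ) δ ha (by linarith) hδ
  obtain ⟨κ2, h2, c2, K2, M2, C2, B2, hκ2, hh2, hc2, hK2, hM2, hKW2, hone2⟩ := test_flat M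
  set k := Kav K h with hk
  set ρ := mg k M with hρd
  have hρ : 0 ≤ ρ := mg_nonneg hKW
  have hlim : Tendsto (fun T => ∫ y in (1 : ℝ)..2, NU k M T y) atTop (𝓝 ρ) := DL_K hAa hK hκ0 hh hM hKW
  have hlim2 := DL_K hAa hK2 hκ2 hh2 hM2 hKW2
  have hb2 : ∀ᶠ T in atTop, ∫ y in (1 : ℝ)..2, NU (fun α => c2 * Kav K2 h2 α) M2 T y ≤
      c2 * (mg (Kav K2 h2) M2 + 1) := by
    filter_upwards [hlim2.eventually (eventually_lt_nhds (by linarith : mg (Kav K2 h2) M2 < mg (Kav K2 h2) M2 + 1))]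
      with T hT
    simp only [NU_smul]
    rw [intervalIntegral.integral_const_mul]
    exact mul_le_mul_of_nonneg_left hT.le hc2.le
  obtain ⟨⟨C1, hC1, hA⟩, hBd⟩ := NU_base hKW (KW_smul hKW2 c2 hc2.le) (fun α => hone2 α) _ hb2 ρ hlim
  have hFej : ∀ x : ℝ → ℝ, Tendsto x atTop (𝓝 1) → ∀ ε : ℝ, 0 < ε → ∀ᶠ T in atTop,
      ∫ y in (1 / Real.log T ^ 2)..(Real.log T ^ 2), qf (x T) y / y ^ 2 * NU k M T y ≤ Real.pi * ρ + ε :=
    fun x hx ε hε => fejer_int (NU k M) ρ C1 hρ hC1 (NU_cont hKW.cont M) (NU_nonneg hKW.nn M) hA hBd x hx ε hε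
  have hav := G0_av RH hKW hvan ρ hρ hFej kT kT_lim (δ / c) (by positivity)
  set ε2 := min 1 (ε / (8 * (b - a + ε))) with hε2d
  have hba : 0 < b - a := by linarith
  have hε2 : 0 < ε2 := lt_min one_pos (by positivity)
  have hε21 : ε2 ≤ 1 := min_le_left _ _
  have hε2b : ε2 * (b - a + ε) ≤ ε / 8 := by
    calc ε2 * (b - a + ε) ≤ ε / (8 * (b - a + ε)) * (b - a + ε) :=
          mul_le_mul_of_nonneg_right (min_le_right _ _) (by linarith)
      _ = ε / 8 := by field_simp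
  have hwin := window (fun α => c * k α) (continuous_const.mul hKW.cont) (fun α => mul_nonneg hc.le (hKW.nn α))
    (c * B) (fun α => mul_le_mul_of_nonneg_left (hKW.bd α) hc.le) M a (b + δ) w hw haw (by linarith) hbw hone ε2 hε2
  have hwinT := Real.tendsto_log_atTop.eventually hwin
  have hexp : ∀ᶠ T in atTop, Real.exp (kT T / 2) ≤ 1 + ε2 := by
    have h1 : Tendsto kT atTop (𝓝 0) := by
      have h2 : Tendsto (fun T : ℝ => 1 + 1 / T) atTop (𝓝 (1 + 0)) :=
        (tendsto_const_nhds.div_atTop tendsto_id).const_add 1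
      have h3 := (Real.continuousAt_log (by norm_num : (1 : ℝ) + 0 ≠ 0)).tendsto.comp h2
      simp only [add_zero, Real.log_one] at h3
      exact h3
    have h4 : Tendsto (fun T => Real.exp (kT T / 2)) atTop (𝓝 (Real.exp (0 / 2))) :=
      (Real.continuous_exp.tendsto _).comp (h1.div_const 2)
    rw [zero_div, Real.exp_zero] at h4
    exact (h4.eventually (eventually_lt_nhds (by linarith : (1 : ℝ) < 1 + ε2))).mono fun T hT => hT.le
  filter_upwards [hav, hwinT, hexp, kap_ev kT kT_lim, small_ev,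
    Real.tendsto_log_atTop.eventually_ge_atTop (1 / δ)] with T h1 h2' h3 h4 h5 h6
  obtain ⟨hT16, hL1, hL8⟩ := h5
  obtain ⟨hk0, hk2⟩ := h4
  have hTp : 0 < T := by linarith
  have hk1 : kT T ≤ 1 := hk2.trans (by rw [div_le_one hTp]; linarith)
  set L := Real.log T with hLd
  have hL0 : 0 < L := by linarith
  have hexpk : Real.exp (kT T) = 1 + 1 / T := by
    unfold kT
    exact Real.exp_log (by positivity)
  have hTa : ∀ x : ℝ, T ^ x = Real.exp (x * L) := fun x => by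
    rw [Real.rpow_def_of_pos hTp, mul_comm]
  have hch := (V_change T (kT T) (a * L + kT T / 2) (b * L + kT T / 2) hk0 hk1 hexpk (by nlinarith)).2
  rw [add_sub_cancel_right, add_sub_cancel_right, ← hTa, ← hTa] at hch
  have hδL : 1 ≤ δ * L := by
    rw [div_le_iff₀ hδ] at h6
    linarith
  have hmono : ∫ v in (a * L + kT T / 2)..(b * L + kT T / 2), fk (kT T) v ^ 2 ≤
      ∫ v in (a * L)..((b + δ) * L), fk (kT T) v ^ 2 := by
    apply intervalIntegral.integral_mono_interval (by linarith) (by nlinarith) (by nlinarith)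
      (Eventually.of_forall fun v => sq_nonneg _)
    exact fk2_ii (kT T) _ _ hk0 hk1 (by nlinarith)
  have hw2 := h2' (kT T) hk0 hk1
  have e1 : ∫ u in Ioc 0 (M * L), (fun α => c * k α) (u / L) * G0 (kT T) u =
      c * ∫ u in Ioc 0 (M * L), k (u / L) * G0 (kT T) u := by
    rw [← MeasureTheory.integral_const_mul]
    congr 1
    ext u
    ring
  rw [e1] at hw2
  have hsp := Real.sqrt_pos.2 Real.pi_pos
  have hs1 : 1 ≤ Real.sqrt Real.pi := by
    rw [Real.one_le_sqrt]; linarith [Real.pi_gt_three]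
  have hLT : 0 < L ^ 2 / T := by positivity
  have hbig : ∫ v in (a * L)..((b + δ) * L), fk (kT T) v ^ 2 ≤ (1 + ε2) * (b - a + 3 * δ) * (L ^ 2 / T) := by
    refine hw2.trans ?_
    calc (1 + ε2) * (1 / Real.sqrt Real.pi) * (c * ∫ u in Ioc 0 (M * L), k (u / L) * G0 (kT T) u) ≤
        (1 + ε2) * (1 / Real.sqrt Real.pi) * (c * ((Real.sqrt Real.pi / 2 * ρ + δ / c) * (L ^ 2 / T))) := by
          gcongr
      _ = (1 + ε2) * (c * ρ / 2 + δ / Real.sqrt Real.pi) * (L ^ 2 / T) := by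
          field_simp
      _ ≤ (1 + ε2) * (b - a + 3 * δ) * (L ^ 2 / T) := by
          apply mul_le_mul_of_nonneg_right _ hLT.le
          apply mul_le_mul_of_nonneg_left _ (by linarith)
          have h7 : δ / Real.sqrt Real.pi ≤ δ := div_le_self hδ.le hs1
          linarith
  have hI0 : 0 ≤ ∫ v in (a * L + kT T / 2)..(b * L + kT T / 2), fk (kT T) v ^ 2 :=
    intervalIntegral.integral_nonneg (by nlinarith) fun v _ => sq_nonneg _
  have hVe : ∫ x in (T ^ a)..(T ^ b), gT T x =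
      Real.exp (kT T / 2) * ∫ v in (a * L + kT T / 2)..(b * L + kT T / 2), fk (kT T) v ^ 2 := by
    rw [hch, ← mul_assoc, ← Real.exp_add]
    simp
  rw [hVe]
  calc Real.exp (kT T / 2) * ∫ v in (a * L + kT T / 2)..(b * L + kT T / 2), fk (kT T) v ^ 2 ≤
      (1 + ε2) * ((1 + ε2) * (b - a + 3 * δ) * (L ^ 2 / T)) :=
        mul_le_mul h3 (hmono.trans hbig) hI0 (by linarith)
    _ = ((1 + ε2) * (1 + ε2) * (b - a + 3 * δ)) * (L ^ 2 / T) := by ring
    _ ≤ (b - a + ε) * (L ^ 2 / T) := by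
        apply mul_le_mul_of_nonneg_right _ hLT.le
        have h8 : (1 + ε2) * (1 + ε2) ≤ 1 + 3 * ε2 := by nlinarith
        have h9 : 0 ≤ b - a + 3 * δ := by linarith
        calc (1 + ε2) * (1 + ε2) * (b - a + 3 * δ) ≤ (1 + 3 * ε2) * (b - a + 3 * δ) :=
              mul_le_mul_of_nonneg_right h8 h9
          _ = (b - a + 3 * δ) + 3 * (ε2 * (b - a + 3 * δ)) := by ring
          _ ≤ (b - a + 3 * δ) + 3 * (ε2 * (b - a + ε)) := by
              have : b - a + 3 * δ ≤ b - a + ε := by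
                rw [hδd]; linarith
              have := mul_le_mul_of_nonneg_left this hε2.le
              linarith
          _ ≤ (b - a + 3 * δ) + 3 * (ε / 8) := by linarith
          _ ≤ b - a + ε := by
              rw [hδd]; linarith

end Pool.Agent.L5helper12.CV
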