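import Pool.Agent.L5helper12.CV.Ex

/-! The upper bound of `G0` by the sum over the zeros. -/

set_option autoImplicit false

open Filter Topology Set MeasureTheory Complex H370

namespace Pool.Agent.L5helper12.CV

open Pool.Agent.L5helper10.TV hiding GG
open Pool.Agent.L5helper12.PV
open Pool.Agent.Y744 (mz mz_nonneg)

lemma logsq_deriv (x : ℝ) (hx : 0 ≤ x) :
    HasDerivAt (fun t : ℝ => -((Real.log (3 + t) ^ 2 + 2 * Real.log (3 + t) + 2) / (3 + t)))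
      ((Real.log (3 + x) / (3 + x)) ^ 2) x := by
  have h0 : (3 + x) ≠ 0 := by positivity
  have h1 : HasDerivAt (fun t : ℝ => 3 + t) 1 x := by simpa using (hasDerivAt_id x).const_add 3
  have h2 : HasDerivAt (fun t : ℝ => Real.log (3 + t)) (1 / (3 + x)) x := h1.log h0
  have h3 := ((((h2.pow 2).add (h2.const_mul 2)).add_const 2).div h1 h0).neg
  have h4 : HasDerivAt (fun t : ℝ => -((Real.log (3 + t) ^ 2 + 2 * Real.log (3 + t) + 2) / (3 + t))) _ x := h3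
  refine h4.congr_deriv ?_
  show -((((2 : ℕ) * Real.log (3 + x) ^ (2 - 1) * (1 / (3 + x)) + 2 * (1 / (3 + x))) * (3 + x) -
    (Real.log (3 + x) ^ 2 + 2 * Real.log (3 + x) + 2) * 1) / (3 + x) ^ 2) = _
  push_cast
  field_simp
  ring

lemma logsq_lim : Tendsto (fun t : ℝ => -((Real.log (3 + t) ^ 2 + 2 * Real.log (3 + t) + 2) / (3 + t))) atTop (𝓝 0) := by
  have h1 : Tendsto (fun x : ℝ => (Real.log x ^ 2 + 2 * Real.log x + 2) / x) atTop (𝓝 0) := by
    have a1 : Tendsto (fun x : ℝ => Real.log x ^ 2 / x) atTop (𝓝 0) :=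
      (Real.isLittleO_pow_log_id_atTop (n := 2)).tendsto_div_nhds_zero
    have a2 : Tendsto (fun x : ℝ => Real.log x / x) atTop (𝓝 0) := by
      have := (Real.isLittleO_pow_log_id_atTop (n := 1)).tendsto_div_nhds_zero
      simpa using this
    have a3 : Tendsto (fun x : ℝ => 2 / x) atTop (𝓝 0) := tendsto_const_nhds.div_atTop tendsto_id
    have a4 := (a1.add (a2.const_mul 2)).add a3
    simp only [mul_zero, add_zero] at a4
    refine a4.congr fun x => ?_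
    ring
  have h2 : Tendsto (fun t : ℝ => 3 + t) atTop atTop := tendsto_atTop_add_const_left _ _ tendsto_id
  have := (h1.comp h2).neg
  simpa using this

lemma logsq_tail (a : ℝ) (ha : 0 ≤ a) :
    IntegrableOn (fun t : ℝ => (Real.log (3 + t) / (3 + t)) ^ 2) (Ioi a) ∧
    ∫ t in Ioi a, (Real.log (3 + t) / (3 + t)) ^ 2 = (Real.log (3 + a) ^ 2 + 2 * Real.log (3 + a) + 2) / (3 + a) := by
  constructor
  · exact integrableOn_Ioi_deriv_of_nonneg' (fun x hx => logsq_deriv x (ha.trans hx)) (fun x _ => sq_nonneg _) logsq_lim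
  · rw [integral_Ioi_of_hasDerivAt_of_nonneg' (fun x hx => logsq_deriv x (ha.trans hx)) (fun x _ => sq_nonneg _) logsq_lim]
    ring

lemma SS_sq_high {C κ u t : ℝ} (hC : 0 ≤ C) (hκ : 0 < κ)
    (hb : ‖SS κ om u t‖ ≤ C * (Real.log (3 + |t|) * mn κ t)) (ht : 0 ≤ t) :
    ‖SS κ om u t‖ ^ 2 ≤ 9 * C ^ 2 * (Real.log (3 + t) / (3 + t)) ^ 2 := by
  have h1 : mn κ t ≤ 3 / (3 + t) := by
    refine (min_le_right _ _).trans ?_
    rw [abs_of_nonneg ht, div_le_div_iff₀ (by positivity) (by positivity)]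
    linarith
  have h0 : 0 ≤ Real.log (3 + t) := Real.log_nonneg (by linarith)
  rw [abs_of_nonneg ht] at hb
  have h2 : ‖SS κ om u t‖ ≤ C * (Real.log (3 + t) * (3 / (3 + t))) := hb.trans (by gcongr)
  calc ‖SS κ om u t‖ ^ 2 ≤ (C * (Real.log (3 + t) * (3 / (3 + t)))) ^ 2 := by gcongr
    _ = _ := by ring

lemma small_ev : ∀ᶠ T : ℝ in atTop, 16 ≤ T ∧ 1 ≤ Real.log T ∧ Real.log T ^ 8 ≤ T := by
  have h1 : ∀ᶠ T : ℝ in atTop, Real.log T ^ 8 ≤ T := by
    have := (Real.isLittleO_pow_log_id_atTop (n := 8)).bound (zero_lt_one)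
    filter_upwards [this, eventually_ge_atTop 1] with T h1 h2
    simp only [id, one_mul, Real.norm_eq_abs] at h1
    rw [abs_of_nonneg (by positivity), abs_of_nonneg (by linarith)] at h1
    exact h1
  filter_upwards [h1, eventually_ge_atTop 16, Real.tendsto_log_atTop.eventually_ge_atTop 1] with T h1 h2 h3
  exact ⟨h2, h3, h1⟩

lemma mid_bd {C κ u t T : ℝ} (hC : 0 ≤ C) (hT : 16 ≤ T) (hL : 1 ≤ Real.log T) (hκ0 : 0 < κ)
    (hκ : κ ≤ 2 / T) (hu : Real.log T / 2 ≤ u) (ht0 : T / Real.log T ^ 2 ≤ t) {z w : ℂ}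
    (hb : ‖z - w‖ ≤ C * (Real.exp (-u) * Real.log T * κ + κ * Real.log T / t)) (η : ℝ) (hη : 0 < η) :
    ‖z‖ ^ 2 ≤ (1 + η) * ‖w‖ ^ 2 + (1 + 1 / η) * (8 * C ^ 2 * (Real.log T ^ 2 / T ^ 3 + Real.log T ^ 6 / T ^ 4)) := by
  have hTp : 0 < T := by linarith
  set L := Real.log T with hLd
  have hL0 : 0 < L := by linarith
  have htp : 0 < t := lt_of_lt_of_le (by positivity) ht0
  refine (sq_up η hη z w).trans ?_
  have h1 : Real.exp (-u) ^ 2 ≤ 1 / T := by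
    rw [← Real.exp_nat_mul]
    calc Real.exp ((2 : ℕ) * (-u)) ≤ Real.exp (-L) := Real.exp_le_exp.2 (by push_cast; linarith)
      _ = 1 / T := by rw [Real.exp_neg, hLd, Real.exp_log hTp, one_div]
  have h2 : κ ^ 2 ≤ 4 / T ^ 2 := by
    calc κ ^ 2 ≤ (2 / T) ^ 2 := by gcongr
      _ = _ := by ring
  have h3 : 1 / t ^ 2 ≤ L ^ 4 / T ^ 2 := by
    rw [div_le_div_iff₀ (by positivity) (by positivity), one_mul]
    rw [div_le_iff₀ (by positivity)] at ht0
    calc T ^ 2 ≤ (t * L ^ 2) ^ 2 := by gcongr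
      _ = _ := by ring
  have h4 : ‖z - w‖ ^ 2 ≤ 8 * C ^ 2 * (L ^ 2 / T ^ 3 + L ^ 6 / T ^ 4) := by
    calc ‖z - w‖ ^ 2 ≤ (C * (Real.exp (-u) * L * κ + κ * L / t)) ^ 2 := by gcongr
      _ ≤ 2 * C ^ 2 * ((Real.exp (-u) ^ 2) * L ^ 2 * κ ^ 2 + κ ^ 2 * L ^ 2 * (1 / t ^ 2)) := by
          have e : (Real.exp (-u) * L * κ + κ * L / t) ^ 2 ≤
              2 * ((Real.exp (-u) * L * κ) ^ 2 + (κ * L / t) ^ 2) := by
            nlinarith [sq_nonneg (Real.exp (-u) * L * κ - κ * L / t)]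
          calc (C * (Real.exp (-u) * L * κ + κ * L / t)) ^ 2 = C ^ 2 * (Real.exp (-u) * L * κ + κ * L / t) ^ 2 := by ring
            _ ≤ C ^ 2 * (2 * ((Real.exp (-u) * L * κ) ^ 2 + (κ * L / t) ^ 2)) := by gcongr
            _ = _ := by
                field_simp
      _ ≤ 2 * C ^ 2 * ((1 / T) * L ^ 2 * (4 / T ^ 2) + (4 / T ^ 2) * L ^ 2 * (L ^ 4 / T ^ 2)) := by gcongr
      _ = _ := by
          field_simp
          ring
  have h5 : 0 < 1 + 1 / η := by positivity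
  nlinarith

theorem G0_up (RH : RiemannHypothesis) (η : ℝ) (hη : 0 < η) : ∃ C : ℝ, 0 ≤ C ∧ ∀ᶠ T in atTop, ∀ κ u : ℝ,
    0 < κ → κ ≤ 2 / T → Real.log T / 2 ≤ u →
    G0 κ u ≤ (1 + η) * 2 * (∫ t in (T / Real.log T ^ 2)..(T * Real.log T ^ 2),
      qf κ t / t ^ 2 * ‖SP (Zw T) u t‖ ^ 2) + C / T := by
  obtain ⟨C1, hC1, hS⟩ := SS_bd RH
  obtain ⟨C2, hC2, hM⟩ := SS_main RH
  refine ⟨64 * C1 ^ 2 + 234 * C1 ^ 2 + (1 + 1 / η) * (16 * C2 ^ 2), by positivity, ?_⟩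
  filter_upwards [hM, small_ev] with T hMT hs κ u hκ0 hκ hu
  obtain ⟨hT16, hL1, hL8⟩ := hs
  have hTp : 0 < T := by linarith
  have hκ1 : κ ≤ 1 := hκ.trans (by rw [div_le_one hTp]; linarith)
  set L := Real.log T with hLd
  have hL0 : 0 < L := by linarith
  have hu0 : 0 ≤ u := by linarith
  set t0 := T / L ^ 2 with ht0
  set t1 := T * L ^ 2 with ht1
  have ht0p : 0 < t0 := by positivity
  have hL2 : 1 ≤ L ^ 2 := one_le_pow₀ hL1
  have h01 : t0 ≤ t1 := by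
    calc t0 ≤ T := div_le_self hTp.le hL2
      _ ≤ t1 := le_mul_of_one_le_right hTp.le hL2
  have ht1p : 0 < t1 := by positivity
  obtain ⟨hint, hG⟩ := G0_half κ hκ0.le hκ1 u
  have hi1 : IntegrableOn (fun t : ℝ => ‖SS κ om u t‖ ^ 2) (Ioc 0 t0) := hint.mono_set Ioc_subset_Ioi_self
  have hi2 : IntegrableOn (fun t : ℝ => ‖SS κ om u t‖ ^ 2) (Ioc t0 t1) :=
    hint.mono_set fun x hx => ht0p.trans hx.1
  have hi3 : IntegrableOn (fun t : ℝ => ‖SS κ om u t‖ ^ 2) (Ioi t1) :=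
    hint.mono_set fun x hx => ht1p.trans hx
  have hi12 : IntegrableOn (fun t : ℝ => ‖SS κ om u t‖ ^ 2) (Ioi t0) :=
    hint.mono_set fun x hx => ht0p.trans hx
  have hsplit : ∫ t in Ioi (0 : ℝ), ‖SS κ om u t‖ ^ 2 = (∫ t in Ioc 0 t0, ‖SS κ om u t‖ ^ 2) +
      ((∫ t in Ioc t0 t1, ‖SS κ om u t‖ ^ 2) + ∫ t in Ioi t1, ‖SS κ om u t‖ ^ 2) := by
    rw [← Ioc_union_Ioi_eq_Ioi ht0p.le, setIntegral_union Ioc_disjoint_Ioi_same measurableSet_Ioi hi1 hi12,
      ← Ioc_union_Ioi_eq_Ioi h01, setIntegral_union Ioc_disjoint_Ioi_same measurableSet_Ioi hi2 hi3]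
  have hκsq : κ ^ 2 ≤ 4 / T ^ 2 := by
    calc κ ^ 2 ≤ (2 / T) ^ 2 := by gcongr
      _ = _ := by ring
  -- low
  have hlow : ∫ t in Ioc 0 t0, ‖SS κ om u t‖ ^ 2 ≤ 64 * C1 ^ 2 / T := by
    have h1 : ∀ t ∈ Ioc 0 t0, ‖SS κ om u t‖ ^ 2 ≤ 64 * C1 ^ 2 * (L ^ 2 / T ^ 2) := by
      intro t ht
      have h2 := hS κ u t hκ0 hκ1 hu0
      have h3 := log3_le T t hT16 ht.1.le (ht.2.trans h01)
      have h4 : ‖SS κ om u t‖ ≤ C1 * (4 * L * κ) :=
        h2.trans (mul_le_mul_of_nonneg_left (mul_le_mul h3 (min_le_left _ _) (mn_nonneg κ t hκ0) (by positivity)) hC1)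
      calc ‖SS κ om u t‖ ^ 2 ≤ (C1 * (4 * L * κ)) ^ 2 := by gcongr
        _ = 16 * C1 ^ 2 * L ^ 2 * κ ^ 2 := by ring
        _ ≤ 16 * C1 ^ 2 * L ^ 2 * (4 / T ^ 2) := by gcongr
        _ = _ := by ring
    calc ∫ t in Ioc 0 t0, ‖SS κ om u t‖ ^ 2 ≤ ∫ _ in Ioc 0 t0, 64 * C1 ^ 2 * (L ^ 2 / T ^ 2) :=
          setIntegral_mono_on hi1 (integrableOn_const (by simp)) measurableSet_Ioc h1
      _ = t0 * (64 * C1 ^ 2 * (L ^ 2 / T ^ 2)) := by
          rw [setIntegral_const, smul_eq_mul, Real.volume_real_Ioc_of_le ht0p.le, sub_zero]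
      _ = 64 * C1 ^ 2 / T := by
          rw [ht0]
          field_simp
  -- high
  have hhigh : ∫ t in Ioi t1, ‖SS κ om u t‖ ^ 2 ≤ 234 * C1 ^ 2 / T := by
    obtain ⟨j1, j2⟩ := logsq_tail t1 ht1p.le
    have h1 : ∫ t in Ioi t1, ‖SS κ om u t‖ ^ 2 ≤ ∫ t in Ioi t1, 9 * C1 ^ 2 * (Real.log (3 + t) / (3 + t)) ^ 2 :=
      setIntegral_mono_on hi3 (j1.const_mul _) measurableSet_Ioi fun t ht =>
        SS_sq_high hC1 hκ0 (hS κ u t hκ0 hκ1 hu0) (ht1p.trans ht).le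
    rw [MeasureTheory.integral_const_mul, j2] at h1
    have h2 := log3_le T t1 hT16 ht1p.le le_rfl
    rw [abs_of_pos ht1p] at h2
    have h3 : 0 ≤ Real.log (3 + t1) := Real.log_nonneg (by linarith)
    have h4 : (Real.log (3 + t1) ^ 2 + 2 * Real.log (3 + t1) + 2) / (3 + t1) ≤ 26 / T := by
      have h5 : Real.log (3 + t1) ^ 2 + 2 * Real.log (3 + t1) + 2 ≤ 26 * L ^ 2 := by nlinarith
      calc _ ≤ (26 * L ^ 2) / (T * L ^ 2) := by
            apply div_le_div₀ (by positivity) h5 (by positivity)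
            linarith
        _ = 26 / T := by field_simp
    calc _ ≤ _ := h1
      _ ≤ 9 * C1 ^ 2 * (26 / T) := by gcongr
      _ = _ := by ring
  -- middle
  have hphi : ContinuousOn (fun t : ℝ => qf κ t / t ^ 2 * ‖SP (Zw T) u t‖ ^ 2) (Icc t0 t1) := by
    apply ContinuousOn.mul
    · apply ContinuousOn.div (qf_cont κ).continuousOn (by fun_prop)
      intro t ht
      have : 0 < t := ht0p.trans_le ht.1
      positivity
    · exact ((SP_cont_t (Zw T) u).norm.pow 2).continuousOn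
  have hmid : ∫ t in Ioc t0 t1, ‖SS κ om u t‖ ^ 2 ≤ (1 + η) * (2 * Real.pi) *
      (∫ t in t0..t1, qf κ t / t ^ 2 * ‖SP (Zw T) u t‖ ^ 2) + (1 + 1 / η) * (16 * C2 ^ 2) / T := by
    set c3 := (1 + 1 / η) * (8 * C2 ^ 2 * (L ^ 2 / T ^ 3 + L ^ 6 / T ^ 4)) with hc3
    have h1 : ∀ t ∈ Ioc t0 t1, ‖SS κ om u t‖ ^ 2 ≤
        (1 + η) * (2 * Real.pi) * (qf κ t / t ^ 2 * ‖SP (Zw T) u t‖ ^ 2) + c3 := by
      intro t ht
      have htp : 0 < t := ht0p.trans ht.1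
      have h2 := hMT κ u t hκ0 hκ1 hu0 ht.1.le ht.2
      rw [← sub_neg_eq_add] at h2
      have h3 := mid_bd hC2 hT16 hL1 hκ0 hκ hu ht.1.le h2 η hη
      refine h3.trans (le_of_eq ?_)
      rw [norm_neg, norm_mul, norm_mul, Complex.norm_real, Complex.norm_real, Real.norm_eq_abs, Real.norm_eq_abs,
        mul_pow, mul_pow, sq_abs, sq_abs, Real.sq_sqrt (by positivity), mk0_sq κ t htp.ne']
      ring
    have hii : IntegrableOn (fun t => (1 + η) * (2 * Real.pi) * (qf κ t / t ^ 2 * ‖SP (Zw T) u t‖ ^ 2)) (Ioc t0 t1) :=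
      ((hphi.integrableOn_Icc).mono_set Ioc_subset_Icc_self).const_mul _
    have hcc : IntegrableOn (fun _ : ℝ => c3) (Ioc t0 t1) := integrableOn_const (by simp)
    calc ∫ t in Ioc t0 t1, ‖SS κ om u t‖ ^ 2 ≤
          ∫ t in Ioc t0 t1, ((1 + η) * (2 * Real.pi) * (qf κ t / t ^ 2 * ‖SP (Zw T) u t‖ ^ 2) + c3) :=
          setIntegral_mono_on hi2 (hii.add hcc) measurableSet_Ioc h1
      _ = (1 + η) * (2 * Real.pi) * (∫ t in t0..t1, qf κ t / t ^ 2 * ‖SP (Zw T) u t‖ ^ 2) + (t1 - t0) * c3 := by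
          rw [integral_add hii hcc, MeasureTheory.integral_const_mul, setIntegral_const, smul_eq_mul,
            Real.volume_real_Ioc_of_le h01, intervalIntegral.integral_of_le h01]
      _ ≤ _ := by
          have h4 : (t1 - t0) * c3 ≤ (1 + 1 / η) * (16 * C2 ^ 2) / T := by
            have h5 : 0 ≤ c3 := by positivity
            calc (t1 - t0) * c3 ≤ t1 * c3 := by
                  apply mul_le_mul_of_nonneg_right _ h5
                  linarith
              _ = (1 + 1 / η) * (8 * C2 ^ 2) * ((L ^ 4 / T + L ^ 8 / T ^ 2) / T) := by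
                  rw [hc3, ht1]
                  field_simp
              _ ≤ (1 + 1 / η) * (8 * C2 ^ 2) * (2 / T) := by
                  have h6 : L ^ 4 ≤ L ^ 8 := pow_le_pow_right₀ hL1 (by norm_num)
                  have h7 : L ^ 4 / T ≤ 1 := by
                    rw [div_le_one hTp]; linarith
                  have h8 : L ^ 8 / T ^ 2 ≤ 1 := by
                    rw [div_le_one (by positivity)]
                    nlinarith
                  gcongr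
                  linarith
              _ = _ := by ring
          linarith
  rw [hsplit] at hG
  have hpi := Real.pi_pos
  have hpi3 := Real.pi_gt_three
  set J := ∫ t in t0..t1, qf κ t / t ^ 2 * ‖SP (Zw T) u t‖ ^ 2 with hJ
  have hfin : Real.pi * G0 κ u ≤ (1 + η) * (2 * Real.pi) * J +
      (64 * C1 ^ 2 + 234 * C1 ^ 2 + (1 + 1 / η) * (16 * C2 ^ 2)) / T := by
    rw [hG, add_div, add_div]
    linarith
  have hE : 0 ≤ (64 * C1 ^ 2 + 234 * C1 ^ 2 + (1 + 1 / η) * (16 * C2 ^ 2)) / T := by positivity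
  have : Real.pi * G0 κ u ≤ Real.pi * ((1 + η) * 2 * J +
      (64 * C1 ^ 2 + 234 * C1 ^ 2 + (1 + 1 / η) * (16 * C2 ^ 2)) / T) := by nlinarith
  exact le_of_mul_le_mul_left this hpi

end Pool.Agent.L5helper12.CV
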