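import Pool.Agent.L5helper12.CV.Prime
import Pool.Agent.L5helper59.CV3
import Pool.Agent.L5helper76.CV.Resid
import Pool.Agent.L5helper5.CV.CV9
import Pool.Agent.L5helper43.CV13
import Pool.Agent.L5helper18.CV.Flat
import Pool.Agent.L5helper83.CV.Left
import Pool.Agent.L5helper50.CV5
import Pool.Agent.L5helper8.CV.CV6
import Pool.Agent.L5helper41.CV.CV8
import Pool.Agent.L5helper30.CV7
import Pool.Agent.L5helper46.CV10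
import Pool.Agent.L5helper21.CV.F11
import Pool.Agent.L5helper42.CV12

/-! The parts of the proof of the converse. -/

set_option autoImplicit false

open Filter Topology Set MeasureTheory Complex H370

namespace Pool.Agent.L5helper12.CV

open Pool.Agent.L5helper10.TV hiding GG
open Pool.Agent.L5helper12.PV
open Pool.Agent.L5helper12.TW (T4 T4_fav Mont)
open Pool.Agent.Y744 (mz mz_nonneg Zb mem_Zb QS Xf Xf_pos Q2 TK ct AG Kav fav Aa Aa_int Nr pr Nr_all)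

theorem QS_of_Q2 {R : ℝ → ℝ} {κ : ℝ} {f : ℝ → ℝ} (h : T4 R κ f) (c : ℝ)
    (hlim : Tendsto (fun T => Q2 f T (Real.log T) / Xf T) atTop (𝓝 c)) :
    Tendsto (fun V => QS (Zb V (2 * V)) (Zb V (2 * V)) mz (fun s => s.im) f (Real.log V) / Xf V) atTop (𝓝 c) :=
  Pool.Agent.L5helper41.CV.QS_of_Q2 h c hlim

theorem fejer_int (ν : ℝ → ℝ → ℝ) (ρ C1 : ℝ) (hρ : 0 ≤ ρ) (hC1 : 0 ≤ C1) (hc : ∀ T, Continuous (ν T))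
    (h0 : ∀ T y, 0 ≤ ν T y)
    (ha : ∀ᶠ T in atTop, ∀ V : ℝ, 1 / Real.log T ^ 3 ≤ V → V ≤ Real.log T ^ 3 →
      ∫ y in V..(2 * V), ν T y ≤ C1 * V)
    (hb : ∀ V : ℝ, 0 < V → Tendsto (fun T => ∫ y in V..(2 * V), ν T y) atTop (𝓝 (ρ * V)))
    (x : ℝ → ℝ) (hx : Tendsto x atTop (𝓝 1)) (ε : ℝ) (hε : 0 < ε) : ∀ᶠ T in atTop,
    ∫ y in (1 / Real.log T ^ 2)..(Real.log T ^ 2), qf (x T) y / y ^ 2 * ν T y ≤ Real.pi * ρ + ε :=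
  Pool.Agent.L5helper21.CV.fejer_int ν ρ C1 hρ hC1 hc h0 ha hb x hx ε hε

theorem G0_half (κ : ℝ) (hκ0 : 0 ≤ κ) (hκ : κ ≤ 1) (u : ℝ) :
    IntegrableOn (fun t : ℝ => ‖SS κ om u t‖ ^ 2) (Ioi 0) ∧
    Real.pi * G0 κ u = ∫ t in Ioi (0 : ℝ), ‖SS κ om u t‖ ^ 2 :=
  Pool.Agent.L5helper42.CV12.G0_half κ hκ0 hκ u

theorem window (k : ℝ → ℝ) (hk : Continuous k) (hk0 : ∀ α, 0 ≤ k α) (B : ℝ) (hkB : ∀ α, k α ≤ B) (ℓ : ℕ)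
    (a b w : ℝ) (hw : 0 < w) (haw : 0 ≤ a - w) (hab : a < b) (hb : b + w ≤ ℓ)
    (hk1 : ∀ α, a - w ≤ α → α ≤ b + w → 1 ≤ k α) (ε : ℝ) (hε : 0 < ε) :
    ∀ᶠ L : ℝ in atTop, ∀ κ : ℝ, 0 < κ → κ ≤ 1 →
    ∫ v in (a * L)..(b * L), fk κ v ^ 2 ≤
      (1 + ε) * (1 / Real.sqrt Real.pi) * ∫ u in Ioc 0 (ℓ * L), k (u / L) * G0 κ u :=
  Pool.Agent.L5helper42.CV12.window k hk hk0 B hkB ℓ a b w hw haw hab hb hk1 ε hε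

theorem test_fn (a b ε : ℝ) (ha : 1 ≤ a) (hab : a < b) (hε : 0 < ε) :
    ∃ (κ w h c : ℝ) (K : ℝ → ℝ) (M : ℕ) (C B : ℝ), 0 < κ ∧ 0 < w ∧ 0 < h ∧ 0 < c ∧ TK κ K ∧ κ + 1 ≤ M ∧
      w ≤ ε ∧ b + w ≤ M ∧ 0 ≤ a - w ∧ KW (Kav K h) M C B ∧
      (∀ α : ℝ, 0 ≤ α → α ≤ 1 / 2 → Kav K h α = 0) ∧
      (∀ α, a - w ≤ α → α ≤ b + w → 1 ≤ c * Kav K h α) ∧
      c * mg (Kav K h) M ≤ 2 * (b - a + ε) :=
  Pool.Agent.L5helper43.CV.test_fn a b ε ha hab hε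

theorem test_flat (ℓ : ℕ) :
    ∃ (κ h c : ℝ) (K : ℝ → ℝ) (M : ℕ) (C B : ℝ), 0 < κ ∧ 0 < h ∧ 0 < c ∧ TK κ K ∧ κ + 1 ≤ M ∧
      KW (Kav K h) M C B ∧ (∀ α : ℝ, 0 ≤ α → α ≤ ℓ + 2 → 1 ≤ c * Kav K h α) :=
  Pool.Agent.L5helper18.CV.test_flat ℓ

end Pool.Agent.L5helper12.CV
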