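import Pool.Agent.L5helper12.CV.Defs
import Pool.Agent.L5helper10.CV.S1

/-! The prime side. -/

set_option autoImplicit false

open Filter Topology Set MeasureTheory Complex H370

namespace Pool.Agent.L5helper12.CV

open Pool.Agent.L5helper10.TV hiding GG g0

lemma om_g0 : om = Pool.Agent.L5helper10.TV.g0 := rfl

lemma hh_exp (u t x : ℝ) (z : ℂ) : hh u t z * cexp (x * z) = (Real.exp (x / 2) : ℂ) * hh (u + x) t z := by
  unfold hh
  rw [Complex.ofReal_exp, ← Complex.exp_add, ← Complex.exp_add, ← Complex.exp_add, ← Complex.exp_add]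
  congr 1
  push_cast
  ring

lemma M0_hh (u t : ℝ) : Pool.Agent.L5helper10.CV.M0 u t = (Real.sqrt (2 * Real.pi) : ℂ) * hh u t 1 := by
  unfold Pool.Agent.L5helper10.CV.M0
  simp_rw [Pool.Agent.L5helper10.CV.M0_eq]
  rw [integral_cexp_quadratic (by norm_num)]
  have h1 : ((Real.pi : ℂ) / -(-(1 / 2 : ℂ))) ^ (1 / 2 : ℂ) = (Real.sqrt (2 * Real.pi) : ℂ) := by
    have : (Real.pi : ℂ) / -(-(1 / 2)) = ((2 * Real.pi : ℝ) : ℂ) := by
      push_cast; ring
    rw [this, Real.sqrt_eq_rpow, Complex.ofReal_cpow (by positivity)]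
    push_cast
    rfl
  rw [h1]
  congr 1
  unfold hh
  rw [← Complex.exp_add]
  congr 1
  linear_combination (0 : ℂ) * Complex.I_sq

lemma int_bd (u t x v : ℝ) (hx : |x| ≤ 1) :
    ‖DD lamc (⟨3 / 2, v⟩ : ℂ) * (hh u t (⟨3 / 2, v⟩ : ℂ) * cexp (x * (⟨3 / 2, v⟩ : ℂ)))‖ ≤
      (D0 * (Real.exp u * Real.exp 2)) * Real.exp (-(1 / 2) * (v - t) ^ 2) := by
  rw [norm_mul, norm_mul, norm_hh]
  have h1 : ‖cexp (x * (⟨3 / 2, v⟩ : ℂ))‖ ≤ Real.exp (3 / 2) := by
    rw [Complex.norm_exp]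
    apply Real.exp_le_exp.2
    simp only [mul_re, ofReal_re, ofReal_im, zero_mul, sub_zero]
    have := (abs_le.1 hx).2
    linarith
  have h2 : Real.exp (u * (3 / 2 - 1 / 2)) * Real.exp (((3 / 2 - 1 / 2) ^ 2 - (v - t) ^ 2) / 2) =
      Real.exp u * Real.exp (1 / 2) * Real.exp (-(1 / 2) * (v - t) ^ 2) := by
    rw [← Real.exp_add, ← Real.exp_add, ← Real.exp_add]
    congr 1
    ring
  rw [h2]
  have h3 : Real.exp 2 = Real.exp (1 / 2) * Real.exp (3 / 2) := by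
    rw [← Real.exp_add]; norm_num
  calc ‖DD lamc (⟨3 / 2, v⟩ : ℂ)‖ * ((Real.exp u * Real.exp (1 / 2) * Real.exp (-(1 / 2) * (v - t) ^ 2)) *
        ‖cexp (x * (⟨3 / 2, v⟩ : ℂ))‖) ≤
      D0 * ((Real.exp u * Real.exp (1 / 2) * Real.exp (-(1 / 2) * (v - t) ^ 2)) * Real.exp (3 / 2)) := by
        gcongr
        · exact D0_nonneg
        · exact norm_DD lamc lamc_norm v
    _ = _ := by rw [h3]; ring

theorem prime_side (κ : ℝ) (hκ0 : 0 < κ) (hκ : κ ≤ 1) (u t : ℝ) :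
    ∫ v : ℝ, DD lamc (⟨3 / 2, v⟩ : ℂ) * (hh u t (⟨3 / 2, v⟩ : ℂ) * Mk κ (⟨3 / 2, v⟩ : ℂ)) =
      Real.sqrt (2 * Real.pi) * (SS κ om u t + Real.sqrt (2 * Real.pi) * (Mk κ 1 * hh u t 1)) := by
  have hab : -(κ / 2) ≤ κ / 2 := by linarith
  set f : ℝ → ℝ → ℂ := fun v x => DD lamc (⟨3 / 2, v⟩ : ℂ) * (hh u t (⟨3 / 2, v⟩ : ℂ) * cexp (x * (⟨3 / 2, v⟩ : ℂ))) with hf
  have e1 : ∀ v : ℝ, DD lamc (⟨3 / 2, v⟩ : ℂ) * (hh u t (⟨3 / 2, v⟩ : ℂ) * Mk κ (⟨3 / 2, v⟩ : ℂ)) =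
      ∫ x in Ioc (-(κ / 2)) (κ / 2), f v x := by
    intro v
    unfold Mk
    rw [intervalIntegral.integral_of_le hab, ← MeasureTheory.integral_const_mul, ← MeasureTheory.integral_const_mul]
  simp_rw [e1]
  have hDc := DD_cont lamc lamc_norm
  have hhc := hh_cont_line u t (3 / 2)
  have hfc : Continuous (Function.uncurry f) := by
    have h1 : Continuous fun p : ℝ × ℝ => (⟨3 / 2, p.1⟩ : ℂ) := by
      have : (fun p : ℝ × ℝ => (⟨3 / 2, p.1⟩ : ℂ)) = fun p => ((3 / 2 : ℝ) : ℂ) + (p.1 : ℂ) * I := by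
        funext p; exact mk_eq _ _
      rw [this]; fun_prop
    have h2 : Continuous fun p : ℝ × ℝ => DD lamc (⟨3 / 2, p.1⟩ : ℂ) := hDc.comp continuous_fst
    have h3 : Continuous fun p : ℝ × ℝ => hh u t (⟨3 / 2, p.1⟩ : ℂ) := hhc.comp continuous_fst
    have h4 : Continuous fun p : ℝ × ℝ => cexp ((p.2 : ℂ) * (⟨3 / 2, p.1⟩ : ℂ)) := by fun_prop
    exact h2.mul (h3.mul h4)
  have hint : Integrable (Function.uncurry f) (volume.prod (volume.restrict (Ioc (-(κ / 2)) (κ / 2)))) := by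
    have hg : Integrable (fun p : ℝ × ℝ => ((D0 * (Real.exp u * Real.exp 2)) * Real.exp (-(1 / 2) * (p.1 - t) ^ 2)) * (1 : ℝ))
        (volume.prod (volume.restrict (Ioc (-(κ / 2)) (κ / 2)))) := by
      apply Integrable.mul_prod (f := fun v : ℝ => (D0 * (Real.exp u * Real.exp 2)) * Real.exp (-(1 / 2) * (v - t) ^ 2))
        (g := fun _ : ℝ => (1 : ℝ))
      · exact (gauss_int t (1 / 2) (by norm_num)).const_mul _
      · exact integrable_const _
    refine hg.mono' hfc.aestronglyMeasurable ?_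
    have hms : ∀ᵐ p ∂((volume : Measure ℝ).prod ((volume : Measure ℝ).restrict (Ioc (-(κ / 2)) (κ / 2)))),
        p.2 ∈ Ioc (-(κ / 2)) (κ / 2) := by
      have e0 : (volume : Measure ℝ).prod ((volume : Measure ℝ).restrict (Ioc (-(κ / 2)) (κ / 2))) =
          ((volume : Measure ℝ).prod (volume : Measure ℝ)).restrict ((Set.univ : Set ℝ) ×ˢ Ioc (-(κ / 2)) (κ / 2)) := by
        rw [← Measure.prod_restrict, Measure.restrict_univ]
      rw [e0]
      have hmem : ∀ᵐ p ∂(((volume : Measure ℝ).prod (volume : Measure ℝ)).restrict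
          ((Set.univ : Set ℝ) ×ˢ Ioc (-(κ / 2)) (κ / 2))), p ∈ (Set.univ : Set ℝ) ×ˢ Ioc (-(κ / 2)) (κ / 2) :=
        ae_restrict_mem (MeasurableSet.univ.prod measurableSet_Ioc)
      exact hmem.mono fun p hp => hp.2
    filter_upwards [hms] with p hp
    rw [mul_one]
    exact int_bd u t p.2 p.1 (abs_le.2 ⟨by linarith [hp.1], by linarith [hp.2]⟩)
  rw [MeasureTheory.integral_integral_swap hint]
  have e2 : ∀ x : ℝ, ∫ v : ℝ, f v x = (Real.sqrt (2 * Real.pi) : ℂ) * ((Real.exp (x / 2) : ℂ) * PP lamc (u + x) t) := by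
    intro x
    have h1 : ∀ v : ℝ, f v x = (Real.exp (x / 2) : ℂ) * (DD lamc (⟨3 / 2, v⟩ : ℂ) * hh (u + x) t (⟨3 / 2, v⟩ : ℂ)) := by
      intro v
      simp only [hf]
      rw [hh_exp]
      ring
    simp_rw [h1]
    rw [MeasureTheory.integral_const_mul, PP_integral lamc lamc_norm (u + x) t]
    ring
  simp_rw [e2]
  rw [MeasureTheory.integral_const_mul, ← intervalIntegral.integral_of_le hab]
  congr 1
  have h3 := Pool.Agent.L5helper10.CV.SS_eq κ u t hκ0 hκ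
  rw [om_g0, h3, M0_hh]
  have h4 : ∫ w in (-(κ / 2))..(κ / 2), (Real.exp (-w / 2) : ℂ) * PP lamc (u - w) t =
      ∫ x in (-(κ / 2))..(κ / 2), (Real.exp (x / 2) : ℂ) * PP lamc (u + x) t := by
    have h5 := intervalIntegral.integral_comp_neg (a := -(κ / 2)) (b := κ / 2)
      (fun x : ℝ => (Real.exp (x / 2) : ℂ) * PP lamc (u + x) t)
    rw [neg_neg] at h5
    rw [← h5]
    simp only [sub_eq_add_neg]
  rw [h4]
  have h6 : Mk κ 1 = ((2 * Real.sinh (κ / 2) : ℝ) : ℂ) := by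
    unfold Mk
    have h7 : ∀ x : ℝ, cexp ((x : ℂ) * 1) = ((Real.exp x : ℝ) : ℂ) := by
      intro x; rw [mul_one, Complex.ofReal_exp]
    simp_rw [h7]
    rw [intervalIntegral.integral_ofReal, integral_exp, Real.sinh_eq]
    congr 1
    ring
  rw [h6]
  ring

end Pool.Agent.L5helper12.CV
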